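import Pool.Agent.H59.L.S8.Y506.PV.Stm2

/-!
# Jobs PV-VERT, PV-VERTS (helper179)
-/

set_option autoImplicit false

namespace Pool.Agent.Y179.PV

open MeasureTheory Set Filter Topology
open scoped ENNReal InnerProductSpace
open Pool.Agent.W695.KH (Eu)
open Pool.Agent.Y506.PV

/-- the linear map with prescribed values on the standard basis -/
noncomputable def lc {n N : ℕ} (z : Fin N → Eu (Fin n)) : Eu (Fin N) →ₗ[ℝ] Eu (Fin n) where
  toFun y := ∑ j, y j • z j
  map_add' y y' := by
    simp only [PiLp.add_apply, add_smul, Finset.sum_add_distrib]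
  map_smul' c y := by
    simp only [PiLp.smul_apply, smul_eq_mul, mul_smul, Finset.smul_sum, RingHom.id_apply]

theorem lc_apply {n N : ℕ} (z : Fin N → Eu (Fin n)) (y : Eu (Fin N)) :
    lc z y = ∑ j, y j • z j := rfl

theorem lc_single {n N : ℕ} (z : Fin N → Eu (Fin n)) (j : Fin N) (c : ℝ) :
    lc z (EuclideanSpace.single j c) = c • z j := by
  rw [lc_apply, Finset.sum_eq_single j]
  · simp
  · intro i _ hi
    simp [hi]
  · intro h
    exact absurd (Finset.mem_univ _) h

/-- a subspace which contains a translate of a set with nonempty interior -/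
theorem surj_of {n N : ℕ} (A : Eu (Fin N) →ₗ[ℝ] Eu (Fin n)) (b : Eu (Fin n))
    (K : Set (Eu (Fin n))) (hK : (interior K).Nonempty) (h : ∀ z ∈ K, ∃ y, A y + b = z) :
    Function.Surjective A := by
  rw [← LinearMap.range_eq_top]
  apply Submodule.eq_top_of_nonempty_interior'
  obtain ⟨p, hp⟩ := hK
  have hopen : IsOpen ((fun z => z + b) ⁻¹' interior K) :=
    isOpen_interior.preimage (by fun_prop)
  refine ⟨p - b, mem_interior.2 ⟨_, ?_, hopen, ?_⟩⟩
  · intro z hz
    obtain ⟨y, hy⟩ := h _ (interior_subset hz)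
    exact ⟨y, add_right_cancel hy⟩
  · show p - b + b ∈ interior K
    rwa [sub_add_cancel]

theorem norm_le_one {N : ℕ} (y : Eu (Fin N)) (h : ∑ j, |y j| ≤ 1) : ‖y‖ ≤ 1 := by
  rw [EuclideanSpace.norm_eq, Real.sqrt_le_one]
  calc ∑ j, ‖y j‖ ^ 2 ≤ ∑ j, |y j| := by
        refine Finset.sum_le_sum fun j _ => ?_
        have h1 : |y j| ≤ 1 :=
          (Finset.single_le_sum (f := fun j => |y j|) (fun _ _ => abs_nonneg _)
            (Finset.mem_univ j)).trans h
        rw [Real.norm_eq_abs]
        have h2 := abs_nonneg (y j)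
        nlinarith
    _ ≤ 1 := h

theorem vert : S_VERT := by
  intro n N x hK
  set A := lc (fun j : Fin N => x j.succ - x 0) with hA
  set v : Fin (N + 1) → Eu (Fin N) :=
    Fin.cons (WithLp.toLp 2 fun _ => (1 : ℝ)) (fun j => EuclideanSpace.single j (1 : ℝ)) with hv
  set I : Fin (N + 1) → Set ℝ := Fin.cons (Iic 1) (fun _ => Ici 0) with hI
  have hS : {y : Eu (Fin N) | ∀ i, ⟪v i, y⟫_ℝ ∈ I i} =
      {y : Eu (Fin N) | ∑ j, y j ≤ 1 ∧ ∀ j, 0 ≤ y j} := by
    ext y
    simp only [mem_ofPred_eq]
    rw [Fin.forall_fin_succ]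
    refine and_congr ?_ (forall_congr' fun j => ?_)
    · simp only [hv, hI, Fin.cons_zero, mem_Iic]
      rw [PiLp.inner_apply]
      simp
    · simp only [hv, hI, Fin.cons_succ, mem_Ici]
      rw [EuclideanSpace.inner_single_left]
      simp
  have hcomb : ∀ y : Eu (Fin N), A y + x 0 = ∑ j, y j • x j.succ + (1 - ∑ j, y j) • x 0 := by
    intro y
    rw [hA, lc_apply]
    simp only [smul_sub, Finset.sum_sub_distrib, ← Finset.sum_smul, sub_smul, one_smul]
    abel
  have himg : convexHull ℝ (range x) = (fun y => A y + x 0) ''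
      {y : Eu (Fin N) | ∑ j, y j ≤ 1 ∧ ∀ j, 0 ≤ y j} := by
    apply Subset.antisymm
    · apply convexHull_min
      · rintro _ ⟨i, rfl⟩
        refine Fin.cases ?_ (fun j => ?_) i
        · exact ⟨0, ⟨by simp, by simp⟩, by simp⟩
        · refine ⟨EuclideanSpace.single j 1, ⟨?_, ?_⟩, ?_⟩
          · rw [Finset.sum_eq_single j]
            · simp
            · intro i _ hi; simp [hi]
            · intro h; exact absurd (Finset.mem_univ _) h
          · intro i
            by_cases h : i = j
            · subst h; simp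
            · simp [h]
          · show A (EuclideanSpace.single j 1) + x 0 = x j.succ
            rw [hA, lc_single]; simp
      · rintro _ ⟨y1, ⟨h1, h2⟩, rfl⟩ _ ⟨y2, ⟨h3, h4⟩, rfl⟩ s t hs ht hst
        refine ⟨s • y1 + t • y2, ⟨?_, ?_⟩, ?_⟩
        · simp only [PiLp.add_apply, PiLp.smul_apply, smul_eq_mul, Finset.sum_add_distrib,
            ← Finset.mul_sum]
          nlinarith
        · intro j
          simp only [PiLp.add_apply, PiLp.smul_apply, smul_eq_mul]
          have := h2 j
          have := h4 j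
          positivity
        · show A (s • y1 + t • y2) + x 0 = s • (A y1 + x 0) + t • (A y2 + x 0)
          rw [map_add, map_smul, map_smul, smul_add, smul_add]
          have : x 0 = s • x 0 + t • x 0 := by rw [← add_smul, hst, one_smul]
          conv_lhs => rw [this]
          abel
    · rintro _ ⟨y, ⟨h1, h2⟩, rfl⟩
      show A y + x 0 ∈ _
      rw [hcomb]
      have key := (convex_convexHull ℝ (range x)).sum_mem (t := Finset.univ)
        (w := (Fin.cons (1 - ∑ j, y j) (fun j => y j) : Fin (N + 1) → ℝ)) (z := x)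
        (by
          intro i _
          refine Fin.cases ?_ (fun j => ?_) i
          · simp only [Fin.cons_zero]; linarith
          · simp only [Fin.cons_succ]; exact h2 j)
        (by rw [Fin.sum_univ_succ]; simp)
        (fun i _ => subset_convexHull ℝ _ ⟨i, rfl⟩)
      rw [Fin.sum_univ_succ] at key
      simp only [Fin.cons_zero, Fin.cons_succ] at key
      rw [add_comm ((1 - ∑ j, y j) • x 0)] at key
      exact key
  refine ⟨A, v, I, ?_, ?_, ?_, ?_, ?_, ?_⟩
  · refine surj_of A (x 0) _ hK fun z hz => ?_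
    rw [himg] at hz
    obtain ⟨y, -, hy⟩ := hz
    exact ⟨y, hy⟩
  · intro i
    refine Fin.cases ?_ (fun j => ?_) i
    · simp only [hI, Fin.cons_zero]; exact isClosed_Iic
    · simp only [hI, Fin.cons_succ]; exact isClosed_Ici
  · intro i
    refine Fin.cases ?_ (fun j => ?_) i
    · simp only [hI, Fin.cons_zero]; exact ordConnected_Iic
    · simp only [hI, Fin.cons_succ]; exact ordConnected_Ici
  · rw [hS]
    refine (Metric.isBounded_closedBall (x := (0 : Eu (Fin N))) (r := 1)).subset fun y hy => ?_
    rw [mem_closedBall_zero_iff]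
    apply norm_le_one
    calc ∑ j, |y j| = ∑ j, y j := Finset.sum_congr rfl fun j _ => abs_of_nonneg (hy.2 j)
      _ ≤ 1 := hy.1
  · rw [hS]
    refine ⟨WithLp.toLp 2 fun _ => (1 : ℝ) / (2 * (N + 1)), mem_interior.2
      ⟨{y : Eu (Fin N) | ∑ j, y j < 1 ∧ ∀ j, 0 < y j}, ?_, ?_, ?_⟩⟩
    · rintro y ⟨h1, h2⟩
      exact ⟨h1.le, fun j => (h2 j).le⟩
    · apply IsOpen.inter
      · exact isOpen_lt (f := fun y : Eu (Fin N) => ∑ j, y j) (by fun_prop) continuous_const
      · have : {y : Eu (Fin N) | ∀ j, 0 < y j} = ⋂ j, {y : Eu (Fin N) | 0 < y j} := by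
          ext y; simp
        change IsOpen {y : Eu (Fin N) | ∀ j, 0 < y j}
        rw [this]
        exact isOpen_iInter_of_finite fun j => isOpen_lt continuous_const (by fun_prop)
    · refine ⟨?_, fun j => ?_⟩
      · simp only [Finset.sum_const, Finset.card_univ, Fintype.card_fin, nsmul_eq_mul]
        rw [mul_one_div, div_lt_one (by positivity)]
        have : (0 : ℝ) ≤ N := Nat.cast_nonneg N
        linarith
      · show (0 : ℝ) < 1 / (2 * (N + 1))
        positivity
  · rw [hS]
    exact himg

theorem phi_one (s : ℝ) : phi 1 1 1 s = ENNReal.ofReal |s| := by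
  unfold phi
  rw [one_mul, one_mul, Real.rpow_one, Real.rpow_one, ← ENNReal.ofReal_add (le_max_right _ _)
    (le_max_right _ _)]
  congr 1
  rcases le_total 0 s with h | h
  · rw [max_eq_left h, max_eq_right (by linarith), abs_of_nonneg h, add_zero]
  · rw [max_eq_right h, max_eq_left (by linarith), abs_of_nonpos h, zero_add]

theorem verts : S_VERTS := by
  intro n N x hK
  set A := lc x with hA
  have hPhS : {y : Eu (Fin N) | PhS 1 (fun j => EuclideanSpace.single j (1 : ℝ)) (fun _ => 1)
      (fun _ => 1) y ≤ 1} = {y : Eu (Fin N) | ∑ j, |y j| ≤ 1} := by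
    ext y
    simp only [mem_ofPred_eq]
    have : PhS 1 (fun j : Fin N => EuclideanSpace.single j (1 : ℝ)) (fun _ => 1)
        (fun _ => 1) y = ENNReal.ofReal (∑ j, |y j|) := by
      unfold PhS
      rw [ENNReal.ofReal_sum_of_nonneg fun _ _ => abs_nonneg _]
      refine Finset.sum_congr rfl fun j _ => ?_
      rw [phi_one, EuclideanSpace.inner_single_left]
      simp
    rw [this, ENNReal.ofReal_le_one]
  have himg : convexHull ℝ (range x ∪ range fun i => -x i) = A ''
      {y : Eu (Fin N) | ∑ j, |y j| ≤ 1} := by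
    apply Subset.antisymm
    · apply convexHull_min
      · have hs : ∀ (j : Fin N) (c : ℝ), |c| ≤ 1 →
            EuclideanSpace.single j c ∈ {y : Eu (Fin N) | ∑ j, |y j| ≤ 1} := by
          intro j c hc
          rw [mem_ofPred_eq, Finset.sum_eq_single j]
          · simpa using hc
          · intro i _ hi; simp [hi]
          · intro h; exact absurd (Finset.mem_univ _) h
        rintro _ (⟨j, rfl⟩ | ⟨j, rfl⟩)
        · exact ⟨_, hs j 1 (by norm_num), by rw [hA, lc_single, one_smul]⟩
        · exact ⟨_, hs j (-1) (by norm_num), by rw [hA, lc_single, neg_one_smul]⟩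
      · rintro _ ⟨y1, h1, rfl⟩ _ ⟨y2, h2, rfl⟩ s t hs ht hst
        refine ⟨s • y1 + t • y2, ?_, by rw [map_add, map_smul, map_smul]⟩
        rw [mem_ofPred_eq] at h1 h2 ⊢
        calc ∑ j, |(s • y1 + t • y2) j| ≤ ∑ j, (s * |y1 j| + t * |y2 j|) := by
              refine Finset.sum_le_sum fun j _ => ?_
              simp only [PiLp.add_apply, PiLp.smul_apply, smul_eq_mul]
              refine (abs_add_le _ _).trans ?_
              rw [abs_mul, abs_mul, abs_of_nonneg hs, abs_of_nonneg ht]
          _ = s * ∑ j, |y1 j| + t * ∑ j, |y2 j| := by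
              rw [Finset.sum_add_distrib, Finset.mul_sum, Finset.mul_sum]
          _ ≤ 1 := by nlinarith
    · rintro _ ⟨y, hy, rfl⟩
      rw [mem_ofPred_eq] at hy
      have hne : (convexHull ℝ (range x ∪ range fun i => -x i)).Nonempty :=
        hK.mono interior_subset
      have hcv := convex_convexHull ℝ (range x ∪ range fun i => -x i)
      have h0 : (0 : Eu (Fin n)) ∈ convexHull ℝ (range x ∪ range fun i => -x i) := by
        rw [convexHull_nonempty_iff] at hne
        obtain ⟨j⟩ : Nonempty (Fin N) := by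
          obtain ⟨_, (⟨j, _⟩ | ⟨j, _⟩)⟩ := hne <;> exact ⟨j⟩
        have h1 : x j ∈ convexHull ℝ (range x ∪ range fun i => -x i) :=
          subset_convexHull ℝ _ (Or.inl ⟨j, rfl⟩)
        have h2 : -x j ∈ convexHull ℝ (range x ∪ range fun i => -x i) :=
          subset_convexHull ℝ _ (Or.inr ⟨j, rfl⟩)
        have := hcv h1 h2 (a := 1 / 2) (b := 1 / 2) (by norm_num) (by norm_num) (by norm_num)
        simpa using this
      have key := hcv.sum_mem (t := Finset.univ)
        (w := (Fin.cons (1 - ∑ j, |y j|) (fun j => |y j|) : Fin (N + 1) → ℝ))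
        (z := Fin.cons 0 (fun j => if 0 ≤ y j then x j else -x j))
        (by
          intro i _
          refine Fin.cases ?_ (fun j => ?_) i
          · simp only [Fin.cons_zero]; linarith
          · simp only [Fin.cons_succ]; exact abs_nonneg _)
        (by rw [Fin.sum_univ_succ]; simp)
        (by
          intro i _
          refine Fin.cases ?_ (fun j => ?_) i
          · simp only [Fin.cons_zero]; exact h0
          · simp only [Fin.cons_succ]
            split_ifs
            · exact subset_convexHull ℝ _ (Or.inl ⟨j, rfl⟩)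
            · exact subset_convexHull ℝ _ (Or.inr ⟨j, rfl⟩))
      rw [Fin.sum_univ_succ] at key
      simp only [Fin.cons_zero, Fin.cons_succ, smul_zero, zero_add] at key
      rw [hA, lc_apply]
      convert key using 1
      refine Finset.sum_congr rfl fun j _ => ?_
      split_ifs with h
      · rw [abs_of_nonneg h]
      · rw [abs_of_neg (not_le.1 h), smul_neg, neg_smul, neg_neg]
  refine ⟨A, fun j => EuclideanSpace.single j (1 : ℝ), fun _ => 1, fun _ => 1, ?_, ?_, ?_, ?_⟩
  · refine surj_of A 0 _ hK fun z hz => ?_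
    rw [himg] at hz
    obtain ⟨y, -, hy⟩ := hz
    exact ⟨y, by rw [add_zero, hy]⟩
  · rw [hPhS]
    refine (Metric.isBounded_closedBall (x := (0 : Eu (Fin N))) (r := 1)).subset fun y hy => ?_
    rw [mem_closedBall_zero_iff]
    exact norm_le_one y hy
  · rw [hPhS]
    refine ⟨0, mem_interior.2 ⟨{y : Eu (Fin N) | ∑ j, |y j| < 1}, ?_, ?_, ?_⟩⟩
    · intro y hy
      exact le_of_lt (show ∑ j, |y j| < 1 from hy)
    · exact isOpen_lt (f := fun y : Eu (Fin N) => ∑ j, |y j|) (by fun_prop) continuous_const
    · show ∑ j, |(0 : Eu (Fin N)) j| < 1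
      simp
  · rw [hPhS]
    exact himg

end Pool.Agent.Y179.PV
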